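import Pool.Agent.Helper28.OHS.Goals2

/-!
# Packet OHS-LSK: the checks are computed in linear space
-/

namespace Pool.Agent.Helper60.OHS

open Pool.Agent.Helper65.LinSpace Pool.Agent.Helper78.Mpc Pool.Agent.Helper28.Ram Finset Filter
open Pool.Agent.Helper65.OH (Prm)
open Pool.Agent.Helper54.OH (PF)
open Pool.Agent.Helper28.OHS

theorem eq01_le (x y : ℕ) : eq01 x y ≤ 1 := by
  unfold eq01
  split_ifs <;> omega

theorem ls_pκD {α : Type} [Ctx α] {m : α → Prm} {C : α → ℕ} (h : PF m C) :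
    LS (fun z => 2 ^ ((m z).κ * (m z).D)) := by
  have h1 : LS (fun z => (2 ^ (m z).κ) ^ (m z).D) := LS.pow_of_le h.pκ h.D h.hC h.b5
  exact LS.congr h1 fun z => by rw [pow_mul]

theorem sum01 {α : Type} [Ctx α] {f : α → ℕ → ℕ} {N : α → ℕ} (k : ℕ)
    (hf : LS (fun p : α × ℕ => f p.1 p.2)) (hN : LS N) :
    LS (fun a => ∑ i ∈ range (N a), eq01 (f a i) k) :=
  LS.sum_le (f := fun a i => eq01 (f a i) k) (N := N) (B := fun _ => 1)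
    (LS.eq01 hf (LS.const k)) hN (LS.const 1) fun _ _ _ => eq01_le _ _

theorem sum01' {α : Type} [Ctx α] {f : α → ℕ → ℕ} {N : α → ℕ} (k : ℕ)
    (hf : LS (fun p : α × ℕ => f p.1 p.2)) (hN : LS N) :
    LS (fun a => ∑ i ∈ range (N a), (1 - eq01 (f a i) k)) :=
  LS.sum_le (f := fun a i => 1 - eq01 (f a i) k) (N := N) (B := fun _ => 1)
    (LS.sub (LS.const 1) (LS.eq01 hf (LS.const k))) hN (LS.const 1) fun _ _ _ => Nat.sub_le _ _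

theorem two {α : Type} [Ctx α] {G : α → ℕ → ℕ → ℕ} {N M : α → ℕ}
    (hG : LS (fun p : (α × ℕ) × ℕ => G p.1.1 p.1.2 p.2)) (hN : LS N) (hM : LS M) :
    LS (fun a => ∑ o ∈ range (M a), eq01 (∑ i ∈ range (N a), (1 - eq01 (G a o i) 1)) 0) :=
  sum01 (f := fun a o => ∑ i ∈ range (N a), (1 - eq01 (G a o i) 1)) 0
    (sum01' (f := fun (p : α × ℕ) i => G p.1 p.2 i) (N := fun p : α × ℕ => N p.1) 1 hG
      (LS.comp (g := N) hN LS.fst)) hM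

theorem lsk : LSK_stmt := by
  intro α _ m C h F hF
  constructor
  · have hF2 : LS (fun z : ((α × ℕ × ℕ × ℕ) × ℕ) × ℕ =>
        F z.1.1.1 z.1.1.2.1 z.1.1.2.2.2 z.1.1.2.2.1 z.1.2 z.2) :=
      LS.comp (g := fun z : α × ℕ × ℕ × ℕ × ℕ × ℕ => F z.1 z.2.1 z.2.2.1 z.2.2.2.1 z.2.2.2.2.1
        z.2.2.2.2.2) (f := fun z : ((α × ℕ × ℕ × ℕ) × ℕ) × ℕ =>
        (z.1.1.1, z.1.1.2.1, z.1.1.2.2.2, z.1.1.2.2.1, z.1.2, z.2)) hF (by fun_prop)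
    have h0 : PF (fun z : α × ℕ × ℕ × ℕ => m z.1) (fun z => C z.1) :=
      h.comp (π := fun z : α × ℕ × ℕ × ℕ => z.1) (by fun_prop)
    have hs2 := two (G := fun (z : α × ℕ × ℕ × ℕ) o a => F z.1 z.2.1 z.2.2.2 z.2.2.1 o a)
      (N := fun z : α × ℕ × ℕ × ℕ => 2 ^ ((m z.1).κ * (m z.1).D) + 1)
      (M := fun z : α × ℕ × ℕ × ℕ => (m z.1).d) hF2 (LS.add (ls_pκD h0) (LS.const 1)) h0.d
    have hτ : LS (fun z : α × ℕ × ℕ × ℕ => z.2.2.1) := by fun_prop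
    have hd : LS (fun z : α × ℕ × ℕ × ℕ => z.2.2.2) := by fun_prop
    have h3 := LS.mul (LS.lt01 (LS.const 0) hτ) (LS.mul (LS.lt01 (LS.const 0) hd)
      (LS.lt01 (LS.const 0) hs2))
    exact h3
  · have hF2 : LS (fun z : (α × ℕ × ℕ) × ℕ => F z.1.1 z.1.2.1 0 z.1.2.2 z.2 0) :=
      LS.comp (g := fun z : α × ℕ × ℕ × ℕ × ℕ × ℕ => F z.1 z.2.1 z.2.2.1 z.2.2.2.1 z.2.2.2.2.1
        z.2.2.2.2.2) (f := fun z : (α × ℕ × ℕ) × ℕ =>
        (z.1.1, z.1.2.1, 0, z.1.2.2, z.2, 0)) hF (by fun_prop)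
    have h0 : PF (fun z : α × ℕ × ℕ => m z.1) (fun z => C z.1) :=
      h.comp (π := fun z : α × ℕ × ℕ => z.1) (by fun_prop)
    have hs2 := sum01 (f := fun (z : α × ℕ × ℕ) o => F z.1 z.2.1 0 z.2.2 o 0)
      (N := fun z : α × ℕ × ℕ => (m z.1).d) 1 hF2 h0.d
    exact LS.lt01 (LS.const 0) hs2

end Pool.Agent.Helper60.OHS
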